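import Pool.Agent.Work.MP_820bad_co.Bjy5

set_option autoImplicit false

namespace Pool.Agent.Results.MP_820bad_co.General

/-- If at least `k (k + 3) - 1` arcs leave every nonempty proper vertex set of a finite digraph,
then its arc set splits into `k` strong spanning subdigraphs. -/
theorem result (k : ℕ) (hk : 0 < k) (V : Type) [Fintype V] (D : Digraph V)
    (hK : ∀ S : Set V, S.Nonempty → S ≠ Set.univ →
      k * (k + 3) - 1 ≤ {p : V × V | p.1 ∈ S ∧ p.2 ∉ S ∧ D.Adj p.1 p.2}.ncard) :
    ∃ A : Fin k → V → V → Prop,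
      (∀ u v, D.Adj u v ↔ ∃ i, A i u v) ∧
      (∀ i j u v, A i u v → A j u v → i = j) ∧
      (∀ i u v, Relation.ReflTransGen (A i) u v) :=
  Pool.Agent.Work.MP_820bad_co.BJY.Gen.final k hk D.Adj hK

end Pool.Agent.Results.MP_820bad_co.General
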