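import Pool.Agent.Work.MP_820bad_co.ThMain

set_option autoImplicit false

namespace Pool.Agent.Results.MP_820bad_co.Thomassen

/-- In a finite directed multigraph (arc set `A`, maps `tail`, `head`) with vertices `s`, `t`:
if at least 3 arcs enter every nonempty vertex set avoiding `s` and at least 3 arcs leave every
nonempty vertex set avoiding `t`, then there are disjoint arc sets `T₁`, `T₂` such that `s`
reaches every vertex inside `T₁` and every vertex reaches `t` inside `T₂`. -/
theorem result (V A : Type) [Fintype V] [DecidableEq V] [Fintype A] (tail head : A → V) (s t : V)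
    (hs : ∀ W : Finset V, W.Nonempty → s ∉ W →
      3 ≤ (Finset.univ.filter (fun a : A => tail a ∉ W ∧ head a ∈ W)).card)
    (ht : ∀ U : Finset V, U.Nonempty → t ∉ U →
      3 ≤ (Finset.univ.filter (fun a : A => tail a ∈ U ∧ head a ∉ U)).card) :
    ∃ T₁ T₂ : Finset A, Disjoint T₁ T₂ ∧
      (∀ v : V,
        Relation.ReflTransGen (fun x y : V => ∃ a ∈ T₁, tail a = x ∧ head a = y) s v) ∧
      (∀ v : V,
        Relation.ReflTransGen (fun x y : V => ∃ a ∈ T₂, tail a = x ∧ head a = y) v t) := by
  classical
  obtain ⟨T₁, _, T₂, _, h, r1, r2⟩ :=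
    Pool.Agent.Work.MP_820bad_co.Th.thomassen tail head Finset.univ s t hs
      (fun U h1 h2 => by
        have := ht U h1 h2
        unfold Pool.Agent.Work.MP_820bad_co.Th.din
        simpa only [and_comm] using this)
  exact ⟨T₁, T₂, h, r1, r2⟩

end Pool.Agent.Results.MP_820bad_co.Thomassen
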